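import Mathlib

set_option autoImplicit false
set_option maxHeartbeats 400000

namespace Pool.Agent.Results.MP_8e2100_an.Fails

open Filter Topology Set Metric MeasureTheory
open scoped ENNReal

/-- the infinitesimal Kobayashi (Kobayashi-Royden) metric of `Ω ⊆ ℂ²` -/
noncomputable def roy (Ω : Set (ℂ × ℂ)) (z v : ℂ × ℂ) : ℝ≥0∞ :=
  ⨅ (α : ℝ) (_ : 0 < α) (f : ℂ → ℂ × ℂ) (_ : DifferentiableOn ℂ f (ball 0 1))
    (_ : MapsTo f (ball 0 1) Ω) (_ : f 0 = z) (_ : (α : ℂ) • deriv f 0 = v), ENNReal.ofReal α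

/-- the Kobayashi distance: the integrated form of `roy` over `C¹` curves in `Ω` -/
noncomputable def kob (Ω : Set (ℂ × ℂ)) (z w : ℂ × ℂ) : ℝ≥0∞ :=
  ⨅ (γ : ℝ → ℂ × ℂ) (_ : ContDiff ℝ 1 γ) (_ : MapsTo γ (Icc 0 1) Ω) (_ : γ 0 = z) (_ : γ 1 = w),
    ∫⁻ t in Icc 0 1, roy Ω (γ t) (deriv γ t)

/-- every Cauchy sequence of `(Ω, kob Ω)` converges in `(Ω, kob Ω)` -/
def KobComplete (Ω : Set (ℂ × ℂ)) : Prop :=
  ∀ x : ℕ → ℂ × ℂ, (∀ n, x n ∈ Ω) →
    (∀ ε > 0, ∃ N, ∀ m ≥ N, ∀ n ≥ N, kob Ω (x m) (x n) < ε) →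
    ∃ y ∈ Ω, Tendsto (fun n => kob Ω (x n) y) atTop (𝓝 0)

/-- the Kobayashi ball -/
def kball (Ω : Set (ℂ × ℂ)) (z : ℂ × ℂ) (r : ℝ) : Set (ℂ × ℂ) :=
  {w ∈ Ω | kob Ω z w < ENNReal.ofReal r}

theorem kob_le {Ω : Set (ℂ × ℂ)} (φ : ℂ → ℂ × ℂ) (hφ : Differentiable ℂ φ)
    (hm : MapsTo φ (ball 0 1) Ω) (τ : ℝ) (h0 : 0 < τ) (h1 : τ < 1) :
    kob Ω (φ 0) (φ τ) ≤ ENNReal.ofReal (τ / (1 - τ)) := by
  have hin : ∀ t ∈ Icc (0 : ℝ) 1, ∀ x ∈ ball (0 : ℂ) 1,
      (t * τ + (1 - τ : ℝ) * x : ℂ) ∈ ball (0 : ℂ) 1 := by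
    intro t ht x hx
    rw [mem_ball_zero_iff] at hx ⊢
    refine (norm_add_le _ _).trans_lt ?_
    rw [norm_mul, norm_mul, Complex.norm_real, Complex.norm_real, Complex.norm_real,
      Real.norm_of_nonneg ht.1, Real.norm_of_nonneg h0.le, Real.norm_of_nonneg (by linarith)]
    nlinarith [ht.2]
  have hc : ContDiff ℝ 1 fun t : ℝ => φ (t * τ) :=
    (hφ.contDiff.restrict_scalars ℝ).comp (Complex.ofRealCLM.contDiff.mul contDiff_const)
  refine iInf_le_of_le (fun t : ℝ => φ (t * τ)) (iInf_le_of_le hc (iInf_le_of_le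
    (fun t ht => hm (by simpa using hin t ht 0 (by simp))) (iInf_le_of_le (by simp)
    (iInf_le_of_le (by simp) ?_))))
  refine (setLIntegral_mono' measurableSet_Icc (g := fun _ => ENNReal.ofReal (τ / (1 - τ)))
    fun t ht => ?_).trans (by simp)
  have e1 : HasDerivAt (fun t : ℝ => φ (t * τ)) ((τ : ℂ) • deriv φ (t * τ)) t := by
    have := (hφ (t * τ)).hasDerivAt.scomp (t : ℂ) ((hasDerivAt_id (t : ℂ)).mul_const (τ : ℂ))
    have h2 := (this.hasFDerivAt.restrictScalars ℝ).comp_hasDerivAt t Complex.ofRealCLM.hasDerivAt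
    exact h2.congr_deriv (by simp)
  have e2 : HasDerivAt (fun x : ℂ => φ (t * τ + (1 - τ : ℝ) * x))
      (((1 - τ : ℝ) : ℂ) • deriv φ (t * τ)) 0 := by
    have h2 : HasDerivAt φ (deriv φ (t * τ)) (t * τ + (1 - τ : ℝ) * (0 : ℂ)) := by
      simpa using (hφ (t * τ)).hasDerivAt
    exact (h2.scomp (0 : ℂ) (((hasDerivAt_id (0 : ℂ)).const_mul ((1 - τ : ℝ) : ℂ)).const_add
      (t * τ : ℂ))).congr_deriv (by simp)
  refine iInf_le_of_le (τ / (1 - τ)) (iInf_le_of_le (div_pos h0 (by linarith))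
    (iInf_le_of_le (fun x : ℂ => φ (t * τ + (1 - τ : ℝ) * x)) (iInf_le_of_le
    (Differentiable.differentiableOn (by fun_prop)) (iInf_le_of_le (fun x hx => hm (hin t ht x hx))
    (iInf_le_of_le (by simp) (iInf_le_of_le ?_ le_rfl))))))
  rw [e1.deriv, e2.deriv, smul_smul, ← Complex.ofReal_mul, div_mul_cancel₀ _ (by linarith)]

theorem rhp (g : ℂ → ℂ) (hg : DifferentiableOn ℂ g (ball 0 1))
    (hp : ∀ t ∈ ball (0 : ℂ) 1, 0 < (g t).re) : ‖deriv g 0‖ ≤ 2 * (g 0).re := by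
  have h0 := hp 0 (by simp)
  have hne : ∀ t ∈ ball (0 : ℂ) 1, g t + (starRingEnd ℂ) (g 0) ≠ 0 := by
    intro t ht h
    have := congrArg Complex.re h
    simp only [Complex.add_re, Complex.conj_re, Complex.zero_re] at this
    linarith [hp t ht]
  have h1 := Complex.norm_deriv_le_one_of_mapsTo_ball
    (f := fun t => (g t - g 0) / (g t + (starRingEnd ℂ) (g 0))) (c := 0) (R := 1)
    ((hg.sub_const _).div (hg.add_const _) hne) (fun t ht => by
      simp only [sub_self, zero_div, mem_closedBall_zero_iff, norm_div]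
      refine div_le_one_of_le₀ ?_ (norm_nonneg _)
      rw [← sq_le_sq₀ (norm_nonneg _) (norm_nonneg _), Complex.sq_norm, Complex.sq_norm,
        Complex.normSq_apply, Complex.normSq_apply]
      simp only [Complex.add_re, Complex.conj_re, Complex.sub_re, Complex.add_im, Complex.conj_im,
        Complex.sub_im]
      nlinarith [mul_pos h0 (hp t ht)]) one_pos
  have h2 := (hg.differentiableAt (ball_mem_nhds 0 one_pos)).hasDerivAt
  have h3 := ((h2.sub_const (g 0)).div (h2.add_const _) (hne 0 (by simp))).deriv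
  have h4 : g 0 + (starRingEnd ℂ) (g 0) = (2 * (g 0).re : ℝ) := Complex.add_conj _
  have h5 : ((2 * (g 0).re : ℝ) : ℂ) ≠ 0 := Complex.ofReal_ne_zero.2 (by positivity)
  rw [h4, sub_self, zero_mul, sub_zero, sq, mul_div_mul_right _ _ h5] at h3
  erw [h3] at h1
  rwa [norm_div, Complex.norm_real, Real.norm_of_nonneg (by positivity),
    div_le_one (by positivity)] at h1

theorem le_kob {Ω : Set (ℂ × ℂ)} (hΩ : IsOpen Ω) (H : ℂ × ℂ → ℝ) (hH : ContDiffOn ℝ 1 H Ω)
    (hd : ∀ f : ℂ → ℂ × ℂ, DifferentiableOn ℂ f (ball 0 1) → MapsTo f (ball 0 1) Ω →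
      ∃ g : ℂ → ℂ, DifferentiableOn ℂ g (ball 0 1) ∧
        ∀ t ∈ ball (0 : ℂ) 1, 0 < (g t).re ∧ H (f t) = Real.log (g t).re / 2)
    (z w : ℂ × ℂ) : edist (H w) (H z) ≤ kob Ω z w := by
  have hdiff : ∀ z ∈ Ω, HasFDerivAt H (fderiv ℝ H z) z := fun z hz =>
    ((hH.differentiableOn one_ne_zero).differentiableAt (hΩ.mem_nhds hz)).hasFDerivAt
  have key : ∀ z v, ‖fderiv ℝ H z v‖ₑ ≤ roy Ω z v := by
    intro z v
    refine le_iInf₂ fun α hα => le_iInf₂ fun f hf => le_iInf₂ fun hm h0 => le_iInf fun hv => ?_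
    obtain ⟨g, hg, hg'⟩ := hd f hf hm
    have h1 := rhp g hg fun t ht => (hg' t ht).1
    have h2 := (hg' 0 (by simp)).1
    have l0 : HasDerivAt (fun s : ℝ => (s : ℂ) * α) (α : ℂ) 0 := by
      simpa using (Complex.ofRealCLM.hasDerivAt (x := 0)).mul_const (α : ℂ)
    have l1 : HasDerivAt (fun s : ℝ => f (s * α)) v 0 := by
      have := ((hf.differentiableAt (ball_mem_nhds 0 one_pos)).hasDerivAt.hasFDerivAt.restrictScalars
        ℝ).comp_hasDerivAt_of_eq 0 l0 (by simp)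
      exact this.congr_deriv (by simp [← hv])
    have l2 := (hdiff z (h0 ▸ hm (by simp))).comp_hasDerivAt_of_eq 0 l1 (by simp [h0])
    have l3 : HasDerivAt (fun s : ℝ => (g (s * α)).re) (α * deriv g 0).re 0 := by
      have := ((hg.differentiableAt (ball_mem_nhds 0 one_pos)).hasDerivAt.hasFDerivAt.restrictScalars
        ℝ).comp_hasDerivAt_of_eq 0 l0 (by simp)
      exact (Complex.reCLM.hasFDerivAt.comp_hasDerivAt 0 this).congr_deriv (by simp)
    have l4 := (l3.log (by simpa using h2.ne')).div_const 2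
    have l5 : (H ∘ fun s : ℝ => f (s * α)) =ᶠ[𝓝 0] fun s : ℝ => Real.log (g (s * α)).re / 2 := by
      filter_upwards [l0.continuousAt.eventually (isOpen_ball.mem_nhds
        (show ((0 : ℝ) : ℂ) * α ∈ ball (0 : ℂ) 1 by simp))] with s hs using (hg' _ hs).2
    rw [l2.unique (l4.congr_of_eventuallyEq l5), ← ofReal_norm]
    refine ENNReal.ofReal_le_ofReal ?_
    simp only [Complex.ofReal_zero, zero_mul, norm_div, Real.norm_of_nonneg h2.le, Real.norm_two]
    rw [div_div, div_le_iff₀ (by positivity)]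
    refine (Complex.abs_re_le_norm _).trans ?_
    rw [norm_mul, Complex.norm_real, Real.norm_of_nonneg hα.le, mul_comm _ 2]
    exact mul_le_mul_of_nonneg_left h1 hα.le
  refine le_iInf₂ fun γ hγ => le_iInf₂ fun hm h0 => le_iInf fun h1 => ?_
  have h2 : ContinuousOn (fun t => fderiv ℝ H (γ t) (deriv γ t)) (Icc 0 1) :=
    ((hH.continuousOn_fderiv_of_isOpen hΩ le_rfl).comp hγ.continuous.continuousOn hm).clm_apply
      (hγ.continuous_deriv le_rfl).continuousOn
  have h3 := intervalIntegral.integral_eq_sub_of_hasDerivAt (f := H ∘ γ)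
    (f' := fun t => fderiv ℝ H (γ t) (deriv γ t)) (a := 0) (b := 1)
    (fun t ht => (hdiff _ (hm (by simpa using ht))).comp_hasDerivAt t
      (hγ.differentiable one_ne_zero t).hasDerivAt)
    (ContinuousOn.intervalIntegrable (by simpa using h2))
  rw [intervalIntegral.integral_of_le zero_le_one] at h3
  rw [edist_eq_enorm_sub, ← h0, ← h1]
  erw [← h3]
  exact (enorm_integral_le_lintegral_enorm _).trans ((lintegral_mono fun t => key _ _).trans
    (lintegral_mono_set Ioc_subset_Icc_self))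

theorem conv {Ω : Set (ℂ × ℂ)} {H : ℂ × ℂ → ℝ} (hH : ∀ z w, edist (H w) (H z) ≤ kob Ω z w)
    {x : ℕ → ℂ × ℂ} (hx : ∀ ε > 0, ∃ N, ∀ m ≥ N, ∀ n ≥ N, kob Ω (x m) (x n) < ε) :
    ∃ l, Tendsto (fun n => H (x n)) atTop (𝓝 l) :=
  cauchySeq_tendsto_of_complete (EMetric.cauchySeq_iff.2 fun ε hε =>
    (hx ε hε).imp fun _ h m hm n hn => (hH _ _).trans_lt (h n hn m hm))

theorem conv_disc {Ω : Set (ℂ × ℂ)} (hΩ : IsOpen Ω) (A : ℂ × ℂ → ℂ) (hA : ContDiffOn ℂ 1 A Ω)
    (h1 : ∀ z ∈ Ω, ‖A z‖ < 1) {x : ℕ → ℂ × ℂ} (hx0 : ∀ n, x n ∈ Ω)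
    (hx : ∀ ε > 0, ∃ N, ∀ m ≥ N, ∀ n ≥ N, kob Ω (x m) (x n) < ε) :
    ∃ a, ‖a‖ < 1 ∧ Tendsto (fun n => A (x n)) atTop (𝓝 a) := by
  have key : ∀ θ : ℂ, ‖θ‖ = 1 →
      ∃ l < 1, Tendsto (fun n => (θ * A (x n)).re) atTop (𝓝 l) := by
    intro θ hθ
    have hp : ∀ z ∈ Ω, 0 < (1 - θ * A z).re := by
      intro z hz
      have := Complex.re_le_norm (θ * A z)
      rw [norm_mul, hθ, one_mul] at this
      rw [Complex.sub_re, Complex.one_re]
      linarith [h1 z hz]
    obtain ⟨l, hl⟩ := conv (le_kob hΩ (fun z => Real.log (1 - θ * A z).re / 2)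
      (((Complex.reCLM.contDiff.comp_contDiffOn ((contDiffOn_const.sub
        (contDiffOn_const.mul hA)).restrict_scalars ℝ)).log fun z hz => (hp z hz).ne').div_const 2)
      fun f hf hm => ⟨fun t => 1 - θ * A (f t), (((hA.differentiableOn one_ne_zero).comp hf
        hm).const_mul θ).const_sub 1, fun t ht => ⟨hp _ (hm ht), rfl⟩⟩) hx
    refine ⟨1 - Real.exp (2 * l), by linarith [Real.exp_pos (2 * l)],
      (((hl.const_mul 2).rexp).const_sub 1).congr fun n => ?_⟩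
    rw [mul_div_cancel₀ _ two_ne_zero, Real.exp_log (hp _ (hx0 n))]
    simp
  obtain ⟨l1, -, e1⟩ := key 1 (by simp)
  obtain ⟨l2, -, e2⟩ := key (-Complex.I) (by simp)
  have e3 : Tendsto (fun n => A (x n)) atTop (𝓝 (l1 + l2 * Complex.I)) := by
    refine (e1.ofReal.add (e2.ofReal.mul_const Complex.I)).congr fun n => ?_
    simp
  refine ⟨_, ?_, e3⟩
  obtain ⟨c, hc, hc'⟩ := Complex.exists_norm_eq_mul_self (l1 + l2 * Complex.I)
  obtain ⟨l, hl, e4⟩ := key c hc
  have := tendsto_nhds_unique ((Complex.continuous_re.tendsto _).comp (e3.const_mul c)) e4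
  rw [← hc', Complex.ofReal_re] at this
  rwa [this]

/-- the domain `0 < |ζ| < 1`, `|w| < |ζ|^k` -/
def dom (k : ℕ) : Set (ℂ × ℂ) := {z | z.1 ≠ 0 ∧ ‖z.1‖ < 1 ∧ ‖z.2‖ < ‖z.1‖ ^ k}

theorem dom_open (k : ℕ) : IsOpen (dom k) :=
  (isOpen_ne_fun continuous_fst continuous_const).inter
    ((isOpen_lt continuous_fst.norm continuous_const).inter
      (isOpen_lt continuous_snd.norm (continuous_fst.norm.pow k)))

theorem mem_dom (k : ℕ) (L u : ℂ) (hL : L.re < 0) (hu : ‖u‖ < 1) :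
    (Complex.exp L, u * Complex.exp L ^ k) ∈ dom k := by
  refine ⟨Complex.exp_ne_zero _, by simpa [Complex.norm_exp] using hL, ?_⟩
  rw [norm_mul, norm_pow]
  exact mul_lt_of_lt_one_left (pow_pos (norm_pos_iff.2 (Complex.exp_ne_zero _)) _) hu

theorem dom_conn (k : ℕ) : IsConnected (dom k) := by
  have h1 : IsConnected ({L : ℂ | L.re < 0} ×ˢ ball (0 : ℂ) 1) :=
    ((convex_halfSpace_re_lt 0).prod (convex_ball 0 1)).isConnected ⟨(-1, 0), by simp⟩
  have h2 := h1.image (fun q : ℂ × ℂ => (Complex.exp q.1, q.2 * Complex.exp q.1 ^ k))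
    (Continuous.continuousOn (by fun_prop))
  convert h2 using 1
  ext z
  constructor
  · rintro ⟨a1, a2, a3⟩
    have a4 := norm_pos_iff.2 a1
    refine ⟨(Complex.log z.1, z.2 / z.1 ^ k), ⟨?_, ?_⟩, ?_⟩
    · simpa [Complex.log_re] using Real.log_neg a4 a2
    · simpa [div_lt_one (pow_pos a4 k)] using a3
    · simp [Complex.exp_log a1, a1]
  · rintro ⟨q, ⟨a1, a2⟩, rfl⟩
    exact mem_dom k _ _ a1 (mem_ball_zero_iff.1 a2)

theorem dom_bdd (k : ℕ) : Bornology.IsBounded (dom k) := by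
  refine (isBounded_closedBall (x := 0) (r := 1)).subset fun z hz => ?_
  rw [mem_closedBall_zero_iff, Prod.norm_def]
  exact max_le hz.2.1.le (hz.2.2.le.trans (pow_le_one₀ (norm_nonneg _) hz.2.1.le))

theorem dom_complete (k : ℕ) : KobComplete (dom k) := by
  intro x hx0 hx
  obtain ⟨a, ha, e1⟩ := conv_disc (dom_open k) (fun z => z.1) (by fun_prop)
    (fun z hz => hz.2.1) hx0 hx
  obtain ⟨u, hu, e2⟩ := conv_disc (dom_open k) (fun z => z.2 / z.1 ^ k)
    (ContDiffOn.div (by fun_prop) (by fun_prop) fun z hz => pow_ne_zero _ hz.1)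
    (fun z hz => by simpa [div_lt_one (pow_pos (norm_pos_iff.2 hz.1) k)] using hz.2.2) hx0 hx
  have hp : ∀ z ∈ dom k, 0 < -Real.log ‖z.1‖ := fun z hz =>
    neg_pos.2 (Real.log_neg (norm_pos_iff.2 hz.1) hz.2.1)
  obtain ⟨l, hl⟩ := conv (le_kob (dom_open k) (fun z => Real.log (-Real.log ‖z.1‖) / 2)
    ((((ContDiffOn.norm ℝ contDiffOn_fst fun z hz => hz.1).log
      fun z hz => norm_ne_zero_iff.2 hz.1).neg.log fun z hz => (hp z hz).ne').div_const 2)
    fun f hf hm => by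
      have h1 : DifferentiableOn ℂ (fun t => (f t).1) (ball 0 1) := hf.fst
      have h2 : ∀ t ∈ ball (0 : ℂ) 1, (f t).1 ≠ 0 := fun t ht => (hm ht).1
      obtain ⟨g, g0, hg⟩ := ((h1.deriv isOpen_ball).div h1 h2).neg.isExactOn_ball.with_val_at 0
        (-Complex.log (f 0).1)
      have h3 : DifferentiableOn ℂ g (ball 0 1) := fun t ht =>
        (hg t ht).differentiableAt.differentiableWithinAt
      have h4 : ∀ t ∈ ball (0 : ℂ) 1, Complex.exp (g t) * (f t).1 = 1 := by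
        intro t ht
        have := isOpen_ball.is_const_of_deriv_eq_zero (𝕜 := ℂ) (convex_ball 0 1).isPreconnected
          (h3.cexp.mul h1) (fun s hs => ?_) ht (mem_ball_self one_pos)
        · simp only [Pi.mul_apply] at this
          rw [this, g0, Complex.exp_neg, Complex.exp_log (h2 0 (by simp)),
            inv_mul_cancel₀ (h2 0 (by simp))]
        · rw [((hg s hs).cexp.mul
            (h1.differentiableAt (isOpen_ball.mem_nhds hs)).hasDerivAt).deriv]
          have := h2 s hs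
          simp only [Pi.neg_apply, Pi.div_apply, Pi.zero_apply]
          field_simp
          ring
      have h5 : ∀ t ∈ ball (0 : ℂ) 1, (g t).re = -Real.log ‖(f t).1‖ := by
        intro t ht
        have := congrArg norm (h4 t ht)
        rw [norm_mul, Complex.norm_exp, norm_one] at this
        rw [← Real.log_inv, ← eq_inv_of_mul_eq_one_left this, Real.log_exp]
      exact ⟨g, h3, fun t ht => ⟨h5 t ht ▸ hp _ (hm ht), by rw [h5 t ht]⟩⟩) hx
  have ha0 : a ≠ 0 := by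
    have e3 : Tendsto (fun n => ‖(x n).1‖) atTop (𝓝 (Real.exp (-Real.exp (2 * l)))) := by
      refine ((hl.const_mul 2).rexp.neg.rexp).congr fun n => ?_
      rw [mul_div_cancel₀ _ two_ne_zero, Real.exp_log (hp _ (hx0 n)), neg_neg,
        Real.exp_log (norm_pos_iff.2 (hx0 n).1)]
    exact norm_pos_iff.1 (tendsto_nhds_unique e3 e1.norm ▸ Real.exp_pos _)
  have hy : (a, u * a ^ k) ∈ dom k := ⟨ha0, ha, by
    rw [norm_mul, norm_pow]
    exact mul_lt_of_lt_one_left (pow_pos (norm_pos_iff.2 ha0) _) hu⟩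
  have e4 : Tendsto x atTop (𝓝 (a, u * a ^ k)) := by
    refine (e1.prodMk_nhds (e2.mul (e1.pow k))).congr fun n => ?_
    rw [div_mul_cancel₀ _ (pow_ne_zero _ (hx0 n).1)]
  refine ⟨_, hy, ?_⟩
  generalize (a, u * a ^ k) = y at hy e4
  obtain ⟨δ, hδ, hb⟩ := Metric.isOpen_iff.1 (dom_open k) y hy
  refine ENNReal.tendsto_nhds_zero.2 fun ε hε => ?_
  obtain ⟨r, -, hr, hr'⟩ := ENNReal.lt_iff_exists_real_btwn.1 hε
  rw [ENNReal.ofReal_pos] at hr
  have hτ : 0 < r / (1 + r) := by positivity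
  have hτ1 : r / (1 + r) < 1 := by rw [div_lt_one (by positivity)]; linarith
  have hτ2 : r / (1 + r) / (1 - r / (1 + r)) = r := by field_simp; ring
  generalize r / (1 + r) = τ at hτ hτ1 hτ2
  filter_upwards [e4.eventually (ball_mem_nhds y (show 0 < δ / (1 + 1 / τ) by positivity))]
    with n hn
  have := kob_le (Ω := dom k) (fun t => x n + (t / τ) • (y - x n)) (by fun_prop) (fun t ht => ?_)
    τ hτ hτ1
  · rw [div_self (Complex.ofReal_ne_zero.2 hτ.ne'), hτ2] at this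
    simpa using this.trans hr'.le
  · refine hb ?_
    rw [mem_ball_zero_iff] at ht
    rw [dist_eq_norm, lt_div_iff₀ (by positivity)] at hn
    rw [mem_ball, dist_eq_norm, add_sub_right_comm]
    refine (norm_add_le _ _).trans_lt (lt_of_le_of_lt ?_ hn)
    rw [norm_smul, norm_sub_rev y, norm_div, Complex.norm_real, Real.norm_of_nonneg hτ.le]
    have : ‖t‖ / τ ≤ 1 / τ := by gcongr
    nlinarith [norm_nonneg (x n - y)]

theorem small (k : ℕ) (p R : ℝ) (hp : p ≤ 2 * k) (hR : 0 < R) :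
    ∫⁻ z, (dom k ∩ {z | ‖z.1‖ < R}).indicator (fun z => ENNReal.ofReal (‖z.1⁻¹‖ ^ p)) z ≤
      ENNReal.ofReal (R⁻¹ ^ p) * (ENNReal.ofReal (R ^ k) ^ 2 * NNReal.pi *
        (ENNReal.ofReal R ^ 2 * NNReal.pi)) := by
  rw [Measure.volume_eq_prod]
  refine (lintegral_prod_le _).trans ?_
  rw [← mul_assoc, ← Complex.volume_ball 0 R, ← lintegral_indicator_const measurableSet_ball]
  refine lintegral_mono fun ζ => ?_
  by_cases h : ζ ≠ 0 ∧ ‖ζ‖ < R
  · rw [indicator_of_mem (mem_ball_zero_iff.2 h.2)]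
    have h0 := norm_pos_iff.2 h.1
    calc _ ≤ ∫⁻ w, (ball (0 : ℂ) (‖ζ‖ ^ k)).indicator (fun _ => ENNReal.ofReal (‖ζ⁻¹‖ ^ p)) w := by
          refine lintegral_mono fun w => ?_
          by_cases hw : (ζ, w) ∈ dom k ∩ {z | ‖z.1‖ < R}
          · rw [indicator_of_mem hw, indicator_of_mem (mem_ball_zero_iff.2 hw.1.2.2)]
          · rw [indicator_of_notMem hw]
            exact zero_le
      _ ≤ _ := by
          rw [lintegral_indicator_const measurableSet_ball, Complex.volume_ball, ← mul_assoc,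
            ← mul_assoc, ← ENNReal.ofReal_pow (by positivity), ← ENNReal.ofReal_pow (by positivity),
            ← ENNReal.ofReal_mul (by positivity), ← ENNReal.ofReal_mul (by positivity)]
          refine mul_le_mul_left (ENNReal.ofReal_le_ofReal ?_) _
          have e : ∀ x : ℝ, 0 < x → x⁻¹ ^ p * (x ^ k) ^ 2 = x ^ (2 * k - p) := by
            intro x hx
            rw [Real.rpow_sub hx, Real.inv_rpow hx.le, ← pow_mul, ← Real.rpow_natCast]
            push_cast
            rw [mul_comm (k : ℝ), div_eq_inv_mul]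
          rw [norm_inv, e _ h0, e _ hR]
          exact Real.rpow_le_rpow h0.le h.2.le (by linarith)
  · refine le_trans (le_of_eq ?_) zero_le
    refine (lintegral_congr fun w => indicator_of_notMem (fun hw => h ⟨hw.1.1, hw.2⟩) _).trans
      lintegral_zero

theorem big (k : ℕ) (τ s : ℝ) (h0 : 0 < τ) (h1 : τ < 1) (hs : 3 / 4 < s * τ / 2) :
    ball (Real.exp (-s + s * τ / 2) : ℂ) (Real.exp (-s + s * τ / 2) / 2) ×ˢ
      ball (0 : ℂ) (τ * (Real.exp (-s + s * τ / 2) / 2) ^ k) ⊆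
      kball (dom k) (Real.exp (-s), 0) (2 * (τ / (1 - τ))) := by
  rintro ⟨ζ, w⟩ ⟨h2, h3⟩
  have hs0 : 0 < s := by nlinarith
  have hc := Real.exp_pos (-s + s * τ / 2)
  have hc' : Complex.exp (-s + s * τ / 2) = Real.exp (-s + s * τ / 2) := by simp
  generalize Real.exp (-s + s * τ / 2) = c at *
  have hc0 : (c : ℂ) ≠ 0 := Complex.ofReal_ne_zero.2 hc.ne'
  rw [mem_ball, dist_eq_norm] at h2
  rw [mem_ball_zero_iff] at h3
  simp only at h2 h3
  have h4 : c / 2 ≤ ‖ζ‖ := by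
    have := norm_sub_norm_le (c : ℂ) ζ
    rw [norm_sub_rev, Complex.norm_real, Real.norm_of_nonneg hc.le] at this
    linarith
  have hζ : ζ ≠ 0 := norm_pos_iff.1 (by linarith)
  have h5 : ‖(ζ - c) / c‖ ≤ 1 / 2 := by
    rw [norm_div, Complex.norm_real, Real.norm_of_nonneg hc.le, div_le_iff₀ hc]
    linarith
  have h6 := Complex.norm_log_one_add_half_le_self h5
  have h7 : Complex.exp (Complex.log (1 + (ζ - c) / c)) = ζ / c := by
    rw [show 1 + (ζ - c) / c = ζ / c by field_simp; ring, Complex.exp_log (div_ne_zero hζ hc0)]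
  generalize Complex.log (1 + (ζ - c) / c) = η at h6 h7
  have hτ : (τ : ℂ) ≠ 0 := Complex.ofReal_ne_zero.2 h0.ne'
  have hm : MapsTo (fun t : ℂ => (Complex.exp (-s + t * ((s * τ / 2 + η) / τ)),
      t * (w / (τ * ζ ^ k)) * Complex.exp (-s + t * ((s * τ / 2 + η) / τ)) ^ k)) (ball 0 1)
      (dom k) := by
    intro t ht
    rw [mem_ball_zero_iff] at ht
    refine mem_dom k _ _ ?_ ?_
    · have a1 : ‖((s * τ / 2 + η) / τ : ℂ)‖ < s := by
        rw [norm_div, Complex.norm_real, Real.norm_of_nonneg h0.le, div_lt_iff₀ h0]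
        refine (norm_add_le _ _).trans_lt ?_
        rw [show (s * τ / 2 : ℂ) = (s * τ / 2 : ℝ) by push_cast; rfl, Complex.norm_real,
          Real.norm_of_nonneg (by positivity)]
        linarith
      have a2 := Complex.re_le_norm (t * ((s * τ / 2 + η) / τ))
      rw [norm_mul] at a2
      have a3 := mul_le_of_le_one_left (norm_nonneg ((s * τ / 2 + η) / τ : ℂ)) ht.le
      rw [Complex.add_re, Complex.neg_re, Complex.ofReal_re]
      linarith
    · rw [norm_mul]
      refine mul_lt_one_of_nonneg_of_lt_one_left (norm_nonneg _) ht ?_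
      rw [norm_div, norm_mul, norm_pow, Complex.norm_real, Real.norm_of_nonneg h0.le]
      exact div_le_one_of_le₀ (h3.le.trans (by gcongr)) (by positivity)
  have h8 := kob_le _ (by fun_prop) hm τ h0 h1
  have h9 := hm (show (τ : ℂ) ∈ ball 0 1 by simpa [abs_of_pos h0] using h1)
  have e1 : Complex.exp (-s + τ * ((s * τ / 2 + η) / τ)) = ζ := by
    rw [mul_div_cancel₀ _ hτ, ← add_assoc, Complex.exp_add, hc', h7, mul_div_cancel₀ _ hc0]
  have e2 : τ * (w / (τ * ζ ^ k)) * ζ ^ k = w := by field_simp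
  simp only [e1, e2, zero_mul, add_zero] at h8 h9
  refine ⟨h9, lt_of_le_of_lt (by simpa using h8) ?_⟩
  have : 0 < τ / (1 - τ) := div_pos h0 (by linarith)
  exact (ENNReal.ofReal_lt_ofReal_iff (by positivity)).2 (by linarith)

theorem result (p : ℝ) (hp : 0 < p) : ∃ Ω : Set (ℂ × ℂ), IsOpen Ω ∧ IsConnected Ω ∧
    Bornology.IsBounded Ω ∧ KobComplete Ω ∧ ∃ f : ℂ × ℂ → ℂ, DifferentiableOn ℂ f Ω ∧
      ∀ r > 0, ∀ C : ℝ, ∃ z ∈ Ω, volume (kball Ω z r) < ∞ ∧
        ENNReal.ofReal C * ∫⁻ w in kball Ω z r, ENNReal.ofReal (‖f w‖ ^ p) <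
          ENNReal.ofReal (‖f z‖ ^ p) * volume (kball Ω z r) := by
  obtain ⟨k, hk⟩ := exists_nat_ge p
  refine ⟨dom k, dom_open k, dom_conn k, dom_bdd k, dom_complete k, fun z => z.1⁻¹,
    DifferentiableOn.inv (by fun_prop) fun z hz => hz.1, fun r hr C => ?_⟩
  have hτ : 0 < r / (2 + r) := by positivity
  have hτ1 : r / (2 + r) < 1 := by rw [div_lt_one (by positivity)]; linarith
  have hτ2 : 2 * (r / (2 + r) / (1 - r / (2 + r))) = r := by field_simp; ring
  generalize r / (2 + r) = τ at hτ hτ1 hτ2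
  have hM : 0 < (2 * |C| + 1) ^ p⁻¹ := by positivity
  have hM' : ((2 * |C| + 1) ^ p⁻¹) ^ p = 2 * |C| + 1 := Real.rpow_inv_rpow (by positivity) hp.ne'
  generalize (2 * |C| + 1) ^ p⁻¹ = M at hM hM'
  set s := 2 * (2 * M / τ + 1) / τ with hs
  have h1 : s * τ / 2 = 2 * M / τ + 1 := by rw [hs]; field_simp
  have h2 : 0 < 2 * M / τ := by positivity
  have hs0 : 0 < s := by positivity
  have h3 := measure_mono (μ := volume) (big k τ s hτ hτ1 (by linarith))
  rw [hτ2, Measure.volume_eq_prod, Measure.prod_prod, Complex.volume_ball, Complex.volume_ball,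
    ← Measure.volume_eq_prod] at h3
  have h4 : M * Real.exp (-s) ≤ τ * (Real.exp (-s + s * τ / 2) / 2) := by
    rw [Real.exp_add, h1]
    have := Real.add_one_le_exp (2 * M / τ + 1)
    have h5 : 2 * M ≤ Real.exp (2 * M / τ + 1) * τ := (div_le_iff₀ hτ).1 (by linarith)
    nlinarith [Real.exp_pos (-s)]
  have hc : 0 < Real.exp (-s + s * τ / 2) / 2 := by positivity
  generalize Real.exp (-s + s * τ / 2) / 2 = c at h3 h4 hc
  have he := Real.exp_pos (-s)
  have he1 : Real.exp (-s) < 1 := Real.exp_lt_one_iff.2 (by linarith)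
  generalize Real.exp (-s) = e at *
  refine ⟨(e, 0), ⟨Complex.ofReal_ne_zero.2 he.ne', by simpa [abs_of_pos he] using he1,
    by simpa [abs_of_pos he] using pow_pos he k⟩, ?_⟩
  have hB : kball (dom k) (e, 0) r ⊆ dom k := fun _ h => h.1
  generalize kball (dom k) (e, 0) r = B at *
  have hV : volume B < ∞ := (measure_mono hB).trans_lt (dom_bdd k).measure_lt_top
  have hV0 : 0 < volume B := lt_of_lt_of_le (by
    have := NNReal.pi_pos
    have : 0 < ENNReal.ofReal c := ENNReal.ofReal_pos.2 hc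
    have : 0 < ENNReal.ofReal (τ * c ^ k) := ENNReal.ofReal_pos.2 (by positivity)
    positivity) h3
  refine ⟨hV, ?_⟩
  have hR : 0 < M * e := by positivity
  have hk1 : k ≠ 0 := by
    rintro rfl
    simp only [Nat.cast_zero] at hk
    linarith
  have h5 := small k p (M * e) (by linarith) hR
  have h6 : ENNReal.ofReal ((M * e) ^ k) ^ 2 * NNReal.pi *
      (ENNReal.ofReal (M * e) ^ 2 * NNReal.pi) ≤ volume B := by
    refine le_trans ?_ h3
    rw [mul_comm]
    gcongr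
    · nlinarith
    · refine (pow_le_pow_left₀ hR.le h4 k).trans ?_
      rw [mul_pow]
      exact mul_le_mul_of_nonneg_right (pow_le_of_le_one hτ.le hτ1.le hk1) (by positivity)
  have h7 : ∫⁻ w in B, ENNReal.ofReal (‖w.1⁻¹‖ ^ p) ≤ ENNReal.ofReal ((M * e)⁻¹ ^ p) * volume B +
      ENNReal.ofReal ((M * e)⁻¹ ^ p) * volume B := by
    refine le_trans (lintegral_mono_ae (g := fun w => ENNReal.ofReal ((M * e)⁻¹ ^ p) +
      (dom k ∩ {z | ‖z.1‖ < M * e}).indicator (fun z => ENNReal.ofReal (‖z.1⁻¹‖ ^ p)) w) ?_) ?_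
    · filter_upwards [ae_restrict_of_ae_restrict_of_subset hB
        (ae_restrict_mem (dom_open k).measurableSet)] with w hw
      by_cases h : ‖w.1‖ < M * e
      · rw [indicator_of_mem (show w ∈ dom k ∩ {z | ‖z.1‖ < M * e} from ⟨hw, h⟩)]
        exact le_add_self
      · refine le_add_right (ENNReal.ofReal_le_ofReal ?_)
        rw [norm_inv]
        exact Real.rpow_le_rpow (by positivity) (inv_anti₀ hR (not_lt.1 h)) hp.le
    · rw [lintegral_add_left measurable_const, setLIntegral_const]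
      exact add_le_add le_rfl ((setLIntegral_le_lintegral _ _).trans
        (h5.trans (mul_le_mul_right h6 _)))
  refine lt_of_le_of_lt (mul_le_mul' (ENNReal.ofReal_le_ofReal (le_abs_self C)) h7) ?_
  rw [← add_mul, ← mul_assoc, ← ENNReal.ofReal_add (by positivity) (by positivity),
    ← ENNReal.ofReal_mul (abs_nonneg C)]
  have h8 : 0 < e⁻¹ ^ p := by positivity
  have h9 : ‖((e : ℂ), (0 : ℂ)).1⁻¹‖ = e⁻¹ := by simp [abs_of_pos he]
  refine ENNReal.mul_lt_mul_left hV0.ne' hV.ne ((ENNReal.ofReal_lt_ofReal_iff (by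
    rw [h9]; exact h8)).2 ?_)
  rw [h9, mul_inv, Real.mul_rpow (by positivity) (by positivity), Real.inv_rpow hM.le, hM',
    ← two_mul, ← mul_assoc, ← mul_assoc]
  refine mul_lt_of_lt_one_left h8 ?_
  rw [← div_eq_mul_inv, div_lt_one (by positivity)]
  linarith

end Pool.Agent.Results.MP_8e2100_an.Fails
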